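import Pool.Agent.H37.Qm2

set_option autoImplicit false

open Pool.Agent.H37.Qm

/-- A quasi-minimal enumeration degree above a non-computable continuous functional. -/
theorem Pool.Agent.Results.MP_9a65c4_lc.Yes.result : ∃ A : Set ℕ, QuasiMin A ∧
    ∃ Φ : (ℕ → ℕ) → ℕ, Continuous Φ ∧ ¬ CompPt (assoc Φ) ∧ Red (assoc Φ) (enum A) :=
  main
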